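import Pool.Agent.Helper86.QA.St4

/-!
# Project QD, part A, module TLM: limit set and conical limit points of the deformed group
-/

set_option autoImplicit false

open MeasureTheory Matrix Set Topology Filter
open scoped ENNReal ComplexConjugate ComplexOrder

namespace Pool.Agent.Helper47.QA

open Pool.Agent.Helper35.PM (hs IsDiscrete limitSet density)
open Pool.Agent.Helper20.QD (Fuch Qp Qinf sph act orb fr mob)
open Pool.Agent.Helper20
open Pool.Agent.Helper86.QA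

private lemma hs_cont : Continuous (fun P : Mat => hs P) := by
  unfold hs
  exact continuous_finsetSum _ fun i _ => continuous_finsetSum _ fun j _ =>
    ((continuous_apply_apply i j).norm.pow 2)

private lemma fr_tendsto {ι : Type} {l : Filter ι} {f g : ι → Mat} {a b : Mat}
    (hf : Tendsto f l (𝓝 a)) (hg : Tendsto g l (𝓝 b)) :
    Tendsto (fun i => fr (f i) (g i)) l (𝓝 (fr a b)) :=
  (hs_cont.tendsto (a - b)).comp (hf.sub hg)

private lemma tendsto_of_fr {ι : Type} {l : Filter ι} {f g : ι → Mat} {a : Mat}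
    (hLFR : QD.StLFR) (hf : Tendsto f l (𝓝 a))
    (h : Tendsto (fun i => fr (f i) (g i)) l (𝓝 0)) : Tendsto g l (𝓝 a) := by
  have key : Tendsto (fun k => f k - g k) l (𝓝 0) := by
    refine tendsto_pi_nhds.2 fun i => tendsto_pi_nhds.2 fun j => ?_
    have h2 : Tendsto (fun k => ‖f k i j - g k i j‖ ^ 2) l (𝓝 0) :=
      squeeze_zero (fun k => by positivity) (fun k => hLFR.2.2.1 _ _ i j) h
    have h3 : Tendsto (fun k => ‖f k i j - g k i j‖) l (𝓝 0) := by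
      have h4 := h2.sqrt
      simpa [Real.sqrt_sq (norm_nonneg _)] using h4
    exact tendsto_zero_iff_norm_tendsto_zero.2 h3
  have h5 := hf.sub key
  simpa using h5

private lemma tr_mul (A : Mat) : (A * Aᴴ).trace = ((hs A : ℝ) : ℂ) := by
  simp [Matrix.trace_fin_two, Matrix.mul_apply, Fin.sum_univ_two, hs, Complex.mul_conj,
    Complex.normSq_eq_norm_sq]

private lemma nmul_le (A : Mat) (i j : Fin 2) : ‖(A * Aᴴ) i j‖ ≤ hs A := by
  have h1 : ‖(A * Aᴴ) i j‖ ≤ ‖A i 0‖ * ‖A j 0‖ + ‖A i 1‖ * ‖A j 1‖ := by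
    rw [Matrix.mul_apply, Fin.sum_univ_two]
    refine (norm_add_le _ _).trans ?_
    simp [Matrix.conjTranspose_apply]
  refine h1.trans ?_
  simp only [hs, Fin.sum_univ_two]
  fin_cases i <;> fin_cases j <;> simp <;>
    nlinarith [sq_nonneg (‖A 0 0‖ - ‖A 1 0‖), sq_nonneg (‖A 0 1‖ - ‖A 1 1‖),
      sq_nonneg ‖A 0 0‖, sq_nonneg ‖A 0 1‖, sq_nonneg ‖A 1 0‖, sq_nonneg ‖A 1 1‖]

private lemma exists_lim {Γ : Type} [Group Γ] (hLMX : QD.StLMX) (ρ : Γ →* SL) {ι : Type}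
    (U : Ultrafilter ι) (f : ι → Γ) :
    ∃ a : Mat, Tendsto (fun i => orb ρ (f i)) (U : Filter ι) (𝓝 a) := by
  have hK : IsCompact (Set.pi univ (fun _ : Fin 2 => Set.pi univ
      (fun _ : Fin 2 => Metric.closedBall (0 : ℂ) 1)) : Set (Fin 2 → Fin 2 → ℂ)) :=
    isCompact_univ_pi fun _ => isCompact_univ_pi fun _ => isCompact_closedBall 0 1
  obtain ⟨a, -, ha⟩ := hK.ultrafilter_le_nhds (U.map (fun i => (orb ρ (f i) : Fin 2 → Fin 2 → ℂ)))
    (by
      rw [Filter.le_principal_iff]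
      refine Filter.mem_map.2 (Filter.Eventually.of_forall fun i => ?_)
      intro k _ l _
      rw [mem_closedBall_zero_iff]
      show ‖orb ρ (f i) k l‖ ≤ 1
      unfold orb density
      rw [tr_mul, Matrix.smul_apply, norm_smul, norm_inv, Complex.norm_real,
        Real.norm_of_nonneg (by linarith [hLMX.1 (ρ (f i))]),
        inv_mul_le_iff₀ (by linarith [hLMX.1 (ρ (f i))]), mul_one]
      exact nmul_le _ k l)
  exact ⟨a, ha⟩

private lemma hs_tendsto {Γ : Type} [Group Γ] (ρ : Γ →* SL) (hd : IsDiscrete ρ) :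
    Tendsto (fun γ : Γ => hs (ρ γ : Mat)) cofinite atTop := by
  refine tendsto_atTop.2 fun X => ?_
  have h1 := hd X
  filter_upwards [h1.compl_mem_cofinite] with γ hγ
  simp only [mem_compl_iff, mem_ofPred_eq, not_le] at hγ
  exact hγ.le

/-- attraction -/
private lemma act_lim {Γ : Type} [Group Γ] (hLFR : QD.StLFR) (hLMX : QD.StLMX) (ρ : Γ →* SL)
    {l : Filter Γ} (hh : Tendsto (fun γ : Γ => hs (ρ γ : Mat)) l atTop) (a r Q : Mat)
    (hQ : Q ∈ sph) (hQr : Q ≠ r) (ha : Tendsto (fun γ => orb ρ γ) l (𝓝 a))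
    (hr : Tendsto (fun γ => orb ρ γ⁻¹) l (𝓝 r)) :
    Tendsto (fun γ => act (ρ γ) Q) l (𝓝 a) := by
  refine tendsto_of_fr hLFR ha ?_
  have h1 : Tendsto (fun γ => fr (orb ρ γ⁻¹) Q) l (𝓝 (fr r Q)) :=
    fr_tendsto hr tendsto_const_nhds
  have hpos : 0 < fr r Q := by
    rcases (hLFR.1 r Q).1.lt_or_eq with h | h
    · exact h
    · exact absurd ((hLFR.1 r Q).2.2 h.symm).symm hQr
  have h2 : Tendsto (fun γ => 2 / (hs (ρ γ : Mat) * (hs (ρ γ : Mat) * fr (orb ρ γ⁻¹) Q / 2))) l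
      (𝓝 0) := by
    refine Tendsto.div_atTop tendsto_const_nhds ?_
    refine hh.atTop_mul_atTop₀ ?_
    refine Tendsto.atTop_div_const (by norm_num) ?_
    exact hh.atTop_mul_pos hpos h1
  refine squeeze_zero' (Filter.Eventually.of_forall fun γ => (hLFR.1 _ _).1) ?_ h2
  have h3 : ∀ᶠ γ in l, 0 < fr (orb ρ γ⁻¹) Q := h1.eventually (lt_mem_nhds hpos)
  filter_upwards [h3] with γ h3
  obtain ⟨h4, h5, h6⟩ := hLMX.2.2.2.2.1 (ρ γ) Q hQ
  have h7 : 0 < hs (ρ γ : Mat) := by linarith [hLMX.1 (ρ γ)]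
  have h8 : orb ρ γ⁻¹ = density ((((ρ γ)⁻¹ : SL) : Mat) * ((((ρ γ)⁻¹ : SL) : Mat))ᴴ) := by
    unfold orb
    rw [map_inv]
  refine h5.trans ?_
  refine div_le_div_of_nonneg_left (by norm_num) (by positivity) ?_
  rw [h8]
  exact mul_le_mul_of_nonneg_left h6 h7.le

/-! ### the identity for the distance -/

private lemma fr_formula (P Q : Mat) (hP : P.IsHermitian) (hQ : Q.IsHermitian)
    (tP : P.trace = 1) (tQ : Q.trace = 1) :
    fr P Q = 2 - 2 * P.det.re - 2 * Q.det.re - 2 * (P * Q).trace.re := by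
  have p10 : P 1 0 = conj (P 0 1) := by
    have := hP.apply 1 0
    simpa using this.symm
  have q10 : Q 1 0 = conj (Q 0 1) := by
    have := hQ.apply 1 0
    simpa using this.symm
  have p00 : (P 0 0).im = 0 := by
    have := congrArg Complex.im (hP.apply 0 0)
    simp at this
    linarith
  have q00 : (Q 0 0).im = 0 := by
    have := congrArg Complex.im (hQ.apply 0 0)
    simp at this
    linarith
  have p11 : P 1 1 = 1 - P 0 0 := by
    rw [Matrix.trace_fin_two] at tP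
    linear_combination tP
  have q11 : Q 1 1 = 1 - Q 0 0 := by
    rw [Matrix.trace_fin_two] at tQ
    linear_combination tQ
  have hn : ∀ z : ℂ, ‖z‖ ^ 2 = z.re ^ 2 + z.im ^ 2 := by
    intro z
    rw [← Complex.normSq_eq_norm_sq, Complex.normSq_apply]
    ring
  unfold fr hs
  simp only [Fin.sum_univ_two, Matrix.sub_apply, hn, Matrix.det_fin_two, Matrix.trace_fin_two,
    Matrix.mul_apply, p10, q10, p11, q11, Complex.sub_re, Complex.sub_im, Complex.add_re,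
    Complex.mul_re, Complex.conj_re, Complex.conj_im, Complex.one_re,
    Complex.one_im, p00, q00]
  ring

private lemma tr_prod (A : SL) (Q : Mat) :
    (((A : Mat) * (A : Mat)ᴴ) * ((A : Mat) * Q * (A : Mat)ᴴ)).trace =
      ((A : Mat) * (A : Mat)ᴴ).trace * ((A : Mat) * Q * (A : Mat)ᴴ).trace - Q.trace := by
  obtain ⟨a, ha⟩ : ∃ a, a = (A : Mat) 0 0 := ⟨_, rfl⟩
  obtain ⟨b, hb⟩ : ∃ b, b = (A : Mat) 0 1 := ⟨_, rfl⟩
  obtain ⟨c, hc⟩ : ∃ c, c = (A : Mat) 1 0 := ⟨_, rfl⟩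
  obtain ⟨d, hd⟩ : ∃ d, d = (A : Mat) 1 1 := ⟨_, rfl⟩
  have h1 : a * d - b * c = 1 := by
    rw [ha, hb, hc, hd]
    have := A.det_coe
    rw [Matrix.det_fin_two] at this
    exact this
  have h2 : conj a * conj d - conj b * conj c = 1 := by
    have := congrArg conj h1
    simpa using this
  simp only [Matrix.trace_fin_two, Matrix.mul_apply, Fin.sum_univ_two,
    Matrix.conjTranspose_apply, ← ha, ← hb, ← hc, ← hd]
  simp only [← Complex.star_def] at h2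
  linear_combination (-(Q 0 0) - Q 1 1) * (a * d - b * c) * h2 - (Q 0 0 + Q 1 1) * h1

private lemma fr_id (hLQC : QD.StLQC) (hLMX : QD.StLMX) (A : SL) (Q : Mat) (hQ : Q ∈ sph) :
    fr (density ((A : Mat) * (A : Mat)ᴴ)) (act A Q) =
      2 / (hs (A : Mat) * Nn A Q) - 2 / hs (A : Mat) ^ 2 := by
  obtain ⟨h1, h2, h3⟩ := hLMX.2.2.2.1 A
  have h4 : act A Q ∈ sph := hLQC.2.2.2.2.2.2.2.2.1 A Q hQ
  obtain ⟨hN, -, -⟩ := hLMX.2.2.2.2.1 A Q hQ
  have hh : 0 < hs (A : Mat) := by linarith [hLMX.1 A]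
  rw [fr_formula _ _ h1.isHermitian h4.1.isHermitian h2 h4.2.1, h3, h4.2.2]
  have hNc : ((A : Mat) * Q * (A : Mat)ᴴ).trace = ((Nn A Q : ℝ) : ℂ) := by
    have hH : ((A : Mat) * Q * (A : Mat)ᴴ).IsHermitian :=
      isHermitian_mul_mul_conjTranspose _ hQ.1.isHermitian
    have h5 : (((A : Mat) * Q * (A : Mat)ᴴ).trace).im = 0 := by
      have h6 := congrArg Complex.im (congrArg Matrix.trace hH)
      rw [Matrix.trace_conjTranspose] at h6
      simp only [Complex.star_def, Complex.conj_im] at h6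
      linarith
    exact Complex.ext (by simp [Nn]) (by simp [h5])
  have hNp : 0 < Nn A Q := hN
  have h7 : (density ((A : Mat) * (A : Mat)ᴴ) * act A Q).trace =
      ((1 - 1 / (hs (A : Mat) * Nn A Q) : ℝ) : ℂ) := by
    unfold act density
    rw [Matrix.smul_mul, Matrix.mul_smul, Matrix.trace_smul, Matrix.trace_smul, tr_prod, hNc,
      tr_mul, hQ.2.1]
    have e1 : ((hs (A : Mat) : ℝ) : ℂ) ≠ 0 := by exact_mod_cast hh.ne'
    have e2 : ((Nn A Q : ℝ) : ℂ) ≠ 0 := by exact_mod_cast hNp.ne'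
    push_cast
    simp only [smul_eq_mul]
    field_simp
  rw [h7]
  simp only [Complex.ofReal_re, Complex.zero_re]
  ring

/-! ### the main remark -/

section

variable {Γ : Type} [Group Γ]

private lemma lim_mem (ρ : Γ →* SL) (U : Ultrafilter Γ) (hU : (U : Filter Γ) ≤ cofinite) (a : Mat)
    (ha : Tendsto (fun γ => orb ρ γ) (U : Filter Γ) (𝓝 a)) : a ∈ limitSet ρ :=
  mapClusterPt_iff_ultrafilter.2 ⟨U, hU, ha⟩

private lemma main_remark (hLFR : QD.StLFR) (hLQC : QD.StLQC) (hLMX : QD.StLMX)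
    (hLLS : QD.StLLS) (hWHM : StWHM) (σ ρ : Γ →* SL) (w : ℂ → ℂ) (hT : TM σ ρ w)
    (hd : IsDiscrete ρ) (U : Ultrafilter Γ) (hU : (U : Filter Γ) ≤ cofinite) (a a' : Mat)
    (ha : Tendsto (fun γ => orb σ γ) (U : Filter Γ) (𝓝 a))
    (ha' : Tendsto (fun γ => orb ρ γ) (U : Filter Γ) (𝓝 a')) : a' = wh w a := by
  obtain ⟨w1, w2, w3, w4, w5, w6⟩ := hWHM w hT.ho
  have w7 := w6 Γ σ ρ hT
  obtain ⟨r, hr⟩ := exists_lim hLMX σ U (fun γ => γ⁻¹)
  obtain ⟨r', hr'⟩ := exists_lim hLMX ρ U (fun γ => γ⁻¹)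
  have hs1 : Tendsto (fun γ : Γ => hs (σ γ : Mat)) (U : Filter Γ) atTop :=
    (hs_tendsto σ hT.fs.discrete).mono_left hU
  have hs2 : Tendsto (fun γ : Γ => hs (ρ γ : Mat)) (U : Filter Γ) atTop :=
    (hs_tendsto ρ hd).mono_left hU
  have haS : a ∈ sph := (hLLS Γ σ hT.fs.discrete).2.1 (lim_mem σ U hU a ha)
  have e01 : Qp 0 ≠ Qp 1 := fun h => zero_ne_one (hLQC.2.2.2.2.2.2.1 h)
  obtain ⟨Q, hQ, hQr, hQr'⟩ : ∃ Q ∈ sph, Q ≠ r ∧ wh w Q ≠ r' := by
    by_contra hcon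
    push Not at hcon
    have i0 := (hLQC.2.2.1 0)
    have i1 := (hLQC.2.2.1 1)
    have iI := hLQC.2.1
    have inj := w4.injOn
    by_cases c0 : Qp 0 = r
    · have c1 : Qp 1 ≠ r := fun h => e01 (c0.trans h.symm)
      have cI : Qinf ≠ r := fun h => i0.2 (c0.trans h.symm)
      have h1 := hcon _ i1.1 c1
      have h2 := hcon _ iI cI
      exact i1.2 (inj i1.1 iI (h1.trans h2.symm))
    · by_cases c1 : Qp 1 = r
      · have cI : Qinf ≠ r := fun h => i1.2 (c1.trans h.symm)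
        have h1 := hcon _ i0.1 c0
        have h2 := hcon _ iI cI
        exact i0.2 (inj i0.1 iI (h1.trans h2.symm))
      · have h1 := hcon _ i0.1 c0
        have h2 := hcon _ i1.1 c1
        exact e01 (inj i0.1 i1.1 (h1.trans h2.symm))
  have l1 := act_lim hLFR hLMX σ hs1 a r Q hQ hQr ha hr
  have l2 := act_lim hLFR hLMX ρ hs2 a' r' (wh w Q) (w4.mapsTo hQ) hQr' ha' hr'
  have hsph : ∀ γ, act (σ γ) Q ∈ sph := fun γ => hLQC.2.2.2.2.2.2.2.2.1 (σ γ) Q hQ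
  have l3 : Tendsto (fun γ => wh w (act (σ γ) Q)) (U : Filter Γ) (𝓝 (wh w a)) := by
    refine (w3 a haS).tendsto.comp ?_
    exact tendsto_nhdsWithin_iff.2 ⟨l1, Filter.Eventually.of_forall hsph⟩
  have l4 : (fun γ => wh w (act (σ γ) Q)) = fun γ => act (ρ γ) (wh w Q) :=
    funext fun γ => w7 γ Q hQ
  rw [l4] at l3
  exact tendsto_nhds_unique l2 l3

end

theorem hTLM (hLFR : QD.StLFR) (hLQC : QD.StLQC) (hLMX : QD.StLMX) (hLLS : QD.StLLS)
    (hWHM : StWHM) (hFUC : StFUC) (hTDS : StTDS) : StTLM := by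
  intro Γ _ σ ρ w hT
  have hd : IsDiscrete ρ := hTDS Γ σ ρ w hT
  obtain ⟨w1, w2, w3, w4, w5, w6⟩ := hWHM w hT.ho
  have w7 := w6 Γ σ ρ hT
  obtain ⟨hF, C, hC, hFC⟩ := hFUC Γ σ hT.fs
  have hlim : limitSet ρ = Qp '' (w '' Metric.sphere 0 1) := by
    ext Q
    constructor
    · intro hQ
      obtain ⟨U, hU, hUQ⟩ := mapClusterPt_iff_ultrafilter.1 hQ
      obtain ⟨a, ha⟩ := exists_lim hLMX σ U (fun γ => γ)
      have h1 := main_remark hLFR hLQC hLMX hLLS hWHM σ ρ w hT hd U hU a Q ha hUQ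
      have h2 := lim_mem σ U hU a ha
      rw [hF] at h2
      obtain ⟨ζ, hζ, rfl⟩ := h2
      rw [w1] at h1
      exact ⟨w ζ, ⟨ζ, hζ, rfl⟩, h1.symm⟩
    · rintro ⟨-, ⟨ζ, hζ, rfl⟩, rfl⟩
      have h2 : Qp ζ ∈ limitSet σ := by
        rw [hF]
        exact ⟨ζ, hζ, rfl⟩
      obtain ⟨U, hU, hUQ⟩ := mapClusterPt_iff_ultrafilter.1 h2
      obtain ⟨a', ha'⟩ := exists_lim hLMX ρ U (fun γ => γ)
      have h1 := main_remark hLFR hLQC hLMX hLLS hWHM σ ρ w hT hd U hU _ a' hUQ ha'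
      rw [w1] at h1
      rw [← h1]
      exact lim_mem ρ U hU a' ha'
  refine ⟨hlim, ?_⟩
  intro Q' hQ' ε hε
  by_contra hcon
  push Not at hcon
  have hQs : Q' ∈ sph := (hLLS Γ ρ hd).2.1 hQ'
  rw [hlim] at hQ'
  obtain ⟨-, ⟨ζ, hζ, rfl⟩, rfl⟩ := hQ'
  choose g hg1 hg2 using fun n : ℕ => hFC ζ hζ (n : ℝ)
  obtain ⟨V, hV⟩ : ∃ V : Ultrafilter ℕ, (V : Filter ℕ) ≤ atTop := Ultrafilter.exists_le _
  obtain ⟨U, hUV⟩ : ∃ U : Ultrafilter Γ, U = V.map g := ⟨_, rfl⟩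
  have hU : (U : Filter Γ) ≤ cofinite := by
    rw [hUV, Ultrafilter.coe_map]
    refine (Filter.map_mono hV).trans ?_
    rw [le_cofinite_iff_eventually_ne]
    intro x
    rw [Filter.eventually_map]
    obtain ⟨N, hN⟩ := exists_nat_gt (hs (σ x : Mat))
    filter_upwards [eventually_ge_atTop N] with n hn hx
    have h1 := hg1 n
    rw [hx] at h1
    have h2 : (N : ℝ) ≤ n := by exact_mod_cast hn
    linarith
  obtain ⟨a, ha⟩ := exists_lim hLMX σ U (fun γ => γ)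
  obtain ⟨a', ha'⟩ := exists_lim hLMX ρ U (fun γ => γ)
  have h1 := main_remark hLFR hLQC hLMX hLLS hWHM σ ρ w hT hd U hU a a' ha ha'
  have hs1 : Tendsto (fun γ : Γ => hs (σ γ : Mat)) (U : Filter Γ) atTop :=
    (hs_tendsto σ hT.fs.discrete).mono_left hU
  have hs2 : Tendsto (fun γ : Γ => hs (ρ γ : Mat)) (U : Filter Γ) atTop :=
    (hs_tendsto ρ hd).mono_left hU
  have haS : a ∈ sph := (hLLS Γ σ hT.fs.discrete).2.1 (lim_mem σ U hU a ha)
  have hζs : Qp ζ ∈ sph := (hLQC.2.2.1 ζ).1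
  have hsph : ∀ γ, act (σ γ) (Qp ζ) ∈ sph := fun γ => hLQC.2.2.2.2.2.2.2.2.1 (σ γ) _ hζs
  obtain ⟨b, hb, hbl⟩ := w5.ultrafilter_le_nhds (U.map (fun γ => act (σ γ) (Qp ζ)))
    (by
      rw [Filter.le_principal_iff]
      exact Filter.mem_map.2 (Filter.Eventually.of_forall hsph))
  have hbt : Tendsto (fun γ => act (σ γ) (Qp ζ)) (U : Filter Γ) (𝓝 b) := hbl
  have hev : ∀ᶠ γ in (U : Filter Γ), Nn (σ γ) (Qp ζ) * hs (σ γ : Mat) ≤ C := by
    rw [hUV, Ultrafilter.coe_map, Filter.eventually_map]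
    exact Filter.Eventually.of_forall hg2
  have hab : 1 / C ≤ fr a b := by
    refine ge_of_tendsto (fr_tendsto ha hbt) ?_
    filter_upwards [hev, hs1.eventually_ge_atTop (2 * C + 1)] with γ h2 h3
    show 1 / C ≤ fr (density ((σ γ : Mat) * (σ γ : Mat)ᴴ)) (act (σ γ) (Qp ζ))
    rw [fr_id hLQC hLMX (σ γ) _ hζs]
    have hN : 0 < Nn (σ γ) (Qp ζ) := (hLMX.2.2.2.2.1 (σ γ) _ hζs).1
    have h4 : 2 ≤ hs (σ γ : Mat) := hLMX.1 (σ γ)
    have h5 : 2 / C ≤ 2 / (hs (σ γ : Mat) * Nn (σ γ) (Qp ζ)) := by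
      refine div_le_div_of_nonneg_left (by norm_num) (by positivity) ?_
      linarith [mul_comm (Nn (σ γ) (Qp ζ)) (hs (σ γ : Mat))]
    have h6 : 2 / hs (σ γ : Mat) ^ 2 ≤ 1 / C := by
      rw [div_le_div_iff₀ (by positivity) hC]
      nlinarith
    have h7 : 2 / C = 1 / C + 1 / C := by ring
    linarith
  have hne : a ≠ b := by
    intro h
    have h2 : fr b b = 0 := by simp [fr, hs]
    rw [h, h2] at hab
    have : 0 < 1 / C := by positivity
    linarith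
  have hne' : a' ≠ wh w b := by
    rw [h1]
    exact fun h => hne (w4.injOn haS hb h)
  have l3 : Tendsto (fun γ => act (ρ γ) (Qp (w ζ))) (U : Filter Γ) (𝓝 (wh w b)) := by
    have l4 : (fun γ => act (ρ γ) (Qp (w ζ))) = fun γ => wh w (act (σ γ) (Qp ζ)) :=
      funext fun γ => by rw [w7 γ _ hζs, w1]
    rw [l4]
    refine (w3 b hb).tendsto.comp ?_
    exact tendsto_nhdsWithin_iff.2 ⟨hbt, Filter.Eventually.of_forall hsph⟩
  have l5 := fr_tendsto ha' l3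
  have l6 : Tendsto (fun γ => fr (orb ρ γ) (act (ρ γ) (Qp (w ζ)))) (U : Filter Γ) (𝓝 0) := by
    have l7 : Tendsto (fun γ : Γ => 2 / (hs (ρ γ : Mat) * ε)) (U : Filter Γ) (𝓝 0) :=
      Tendsto.div_atTop tendsto_const_nhds (hs2.atTop_mul_const hε)
    refine squeeze_zero (fun γ => (hLFR.1 _ _).1) (fun γ => ?_) l7
    refine ((hLMX.2.2.2.2.1 (ρ γ) _ hQs).2.1).trans ?_
    have h4 : 2 ≤ hs (ρ γ : Mat) := hLMX.1 (ρ γ)
    refine div_le_div_of_nonneg_left (by norm_num) (by positivity) ?_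
    exact mul_le_mul_of_nonneg_left (hcon γ) (by linarith)
  have l8 := tendsto_nhds_unique l5 l6
  exact hne' ((hLFR.1 _ _).2.2 l8)

end Pool.Agent.Helper47.QA
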