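import Pool.Agent.Helper86.QA.St5

/-!
# Project QD, part A, module AV1: comparison of the two pairings
-/

set_option autoImplicit false

open MeasureTheory Matrix Set Topology Filter
open scoped ENNReal ComplexConjugate ComplexOrder

namespace Pool.Agent.Helper47.QA

open Pool.Agent.Helper86.QA Pool.Agent.Helper20
open Pool.Agent.Helper20.QD (Fuch IsSU mob)

private lemma ad_bound (p q r : ℂ) : |Ad p q r| ≤ 6 * Real.pi := by
  have h : ∀ a b : ℂ, |bd a b| ≤ 2 * Real.pi := by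
    intro a b
    unfold bd
    rw [abs_mul, abs_of_pos (by norm_num : (0 : ℝ) < 2)]
    exact mul_le_mul_of_nonneg_left (Complex.abs_arg_le_pi _) (by norm_num)
  unfold Ad
  have h1 := abs_add_le (bd p q + bd q r) (bd r p)
  have h2 := abs_add_le (bd p q) (bd q r)
  linarith [h p q, h q r, h r p]

private lemma k2_nonneg (ε : ℝ) (x y : ℂ) : 0 ≤ k2 ε x y := by
  unfold k2
  split_ifs <;> norm_num

private lemma k2_meas (ε : ℝ) (x : ℂ) : Measurable (fun y => k2 ε x y) := by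
  unfold k2
  refine Measurable.ite ?_ measurable_const measurable_const
  have h : Measurable (fun y => mq x y) := by
    unfold mq
    fun_prop
  exact measurableSet_lt h.norm measurable_const

private lemma k2_int (hMQ1 : StMQ1) (hMQ2 : StMQ2) (ε : ℝ) (h0 : 0 < ε) (h1 : ε < 1) (x : ℂ)
    (hx : x ∈ Metric.ball (0 : ℂ) 1) : Integrable (fun y => k2 ε x y) m2 ∧
      ∫ y, k2 ε x y ∂m2 = (m2 (Metric.ball 0 ε)).toReal := by
  have h2 := (hMQ2 ε h0 h1).2.2.1 x hx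
  have h3 : m2 (Metric.ball 0 ε) < ∞ :=
    (measure_mono Metric.ball_subset_closedBall).trans_lt (hMQ1.2.2.2.2.2.2 ε h1)
  refine ⟨⟨(k2_meas ε x).aestronglyMeasurable, ?_⟩, ?_⟩
  · rw [hasFiniteIntegral_iff_ofReal (Filter.Eventually.of_forall fun y => k2_nonneg ε x y), h2]
    exact h3
  · rw [integral_eq_lintegral_of_nonneg_ae
      (Filter.Eventually.of_forall fun y => k2_nonneg ε x y)
      (k2_meas ε x).aestronglyMeasurable, h2]

private lemma inner_int (hMQ1 : StMQ1) (hMQ2 : StMQ2) (ε : ℝ) (h0 : 0 < ε) (h1 : ε < 1)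
    (c : ℂ → ℂ → ℂ → ℝ) (hc : Measurable (fun p : ℂ × ℂ × ℂ => c p.1 p.2.1 p.2.2)) (M : ℝ)
    (hM : ∀ x y z, |c x y z| ≤ M) (x : ℂ) (hx : x ∈ Metric.ball (0 : ℂ) 1) :
    Integrable (fun p : ℂ × ℂ => K2 ε x p.1 p.2 * c x p.1 p.2) (m2.prod m2) ∧
    ‖∫ p : ℂ × ℂ, K2 ε x p.1 p.2 * c x p.1 p.2 ∂(m2.prod m2)‖ ≤
      M * ((m2 (Metric.ball 0 ε)).toReal * (m2 (Metric.ball 0 ε)).toReal) := by
  have : SigmaFinite m2 := hMQ1.1
  obtain ⟨ki, kv⟩ := k2_int hMQ1 hMQ2 ε h0 h1 x hx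
  have hkk : Integrable (fun p : ℂ × ℂ => k2 ε x p.1 * k2 ε x p.2) (m2.prod m2) :=
    ki.mul_prod ki
  have hM0 : 0 ≤ M := (abs_nonneg _).trans (hM 0 0 0)
  have hb : ∀ p : ℂ × ℂ, ‖K2 ε x p.1 p.2 * c x p.1 p.2‖ ≤ M * (k2 ε x p.1 * k2 ε x p.2) := by
    intro p
    rw [norm_mul, Real.norm_eq_abs, Real.norm_eq_abs, mul_comm]
    exact mul_le_mul (hM _ _ _) ((hMQ2 ε h0 h1).2.1 x p.1 p.2) (abs_nonneg _) hM0
  have hm : Measurable (fun p : ℂ × ℂ => K2 ε x p.1 p.2 * c x p.1 p.2) := by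
    have e1 : Measurable (fun p : ℂ × ℂ => ((x, p) : ℂ × ℂ × ℂ)) := by fun_prop
    have e2 := (hMQ2 ε h0 h1).2.2.2.1.comp e1
    have e3 := hc.comp e1
    simp only [Function.comp_def] at e2 e3
    exact e2.mul e3
  refine ⟨(hkk.const_mul M).mono' hm.aestronglyMeasurable (Filter.Eventually.of_forall hb), ?_⟩
  refine (norm_integral_le_of_norm_le (hkk.const_mul M) (Filter.Eventually.of_forall hb)).trans ?_
  rw [integral_const_mul, integral_prod_mul (fun y => k2 ε x y) (fun y => k2 ε x y), kv]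

private lemma outer_int (hMQ1 : StMQ1) (hMQ2 : StMQ2) (ε : ℝ) (h0 : 0 < ε) (h1 : ε < 1)
    (c : ℂ → ℂ → ℂ → ℝ) (hc : Measurable (fun p : ℂ × ℂ × ℂ => c p.1 p.2.1 p.2.2)) (M : ℝ)
    (hM : ∀ x y z, |c x y z| ≤ M) (F : Set ℂ) (hF : MeasurableSet F)
    (hFD : F ⊆ Metric.ball 0 1) (hFm : m2 F < ∞) :
    Integrable (fun x => ∫ p : ℂ × ℂ, K2 ε x p.1 p.2 * c x p.1 p.2 ∂(m2.prod m2))
      (m2.restrict F) := by
  have : SigmaFinite m2 := hMQ1.1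
  have : IsFiniteMeasure (m2.restrict F) := ⟨by rwa [Measure.restrict_apply_univ]⟩
  have hm : Measurable (fun q : ℂ × ℂ × ℂ => K2 ε q.1 q.2.1 q.2.2 * c q.1 q.2.1 q.2.2) :=
    (hMQ2 ε h0 h1).2.2.2.1.mul hc
  have h2 : StronglyMeasurable
      (fun x => ∫ p : ℂ × ℂ, K2 ε x p.1 p.2 * c x p.1 p.2 ∂(m2.prod m2)) :=
    hm.stronglyMeasurable.integral_prod_right'
  refine Integrable.of_bound h2.aestronglyMeasurable
    (M * ((m2 (Metric.ball 0 ε)).toReal * (m2 (Metric.ball 0 ε)).toReal)) ?_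
  exact ae_restrict_of_forall_mem hF fun x hx =>
    (inner_int hMQ1 hMQ2 ε h0 h1 c hc M hM x (hFD hx)).2

private lemma V2_sub (hMQ1 : StMQ1) (hMQ2 : StMQ2) (ε : ℝ) (h0 : 0 < ε) (h1 : ε < 1)
    (c c' : ℂ → ℂ → ℂ → ℝ) (hc : Measurable (fun p : ℂ × ℂ × ℂ => c p.1 p.2.1 p.2.2))
    (hc' : Measurable (fun p : ℂ × ℂ × ℂ => c' p.1 p.2.1 p.2.2)) (M : ℝ)
    (hM : ∀ x y z, |c x y z| ≤ M) (hM' : ∀ x y z, |c' x y z| ≤ M)
    (F : Set ℂ) (hF : MeasurableSet F) (hFD : F ⊆ Metric.ball 0 1) (hFm : m2 F < ∞) :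
    V2 ε F (fun x y z => c x y z - c' x y z) = V2 ε F c - V2 ε F c' := by
  unfold V2
  rw [← integral_sub (outer_int hMQ1 hMQ2 ε h0 h1 c hc M hM F hF hFD hFm)
    (outer_int hMQ1 hMQ2 ε h0 h1 c' hc' M hM' F hF hFD hFm)]
  refine setIntegral_congr_fun hF ?_
  intro x hx
  show _ = (∫ p : ℂ × ℂ, K2 ε x p.1 p.2 * c x p.1 p.2 ∂(m2.prod m2))
    - ∫ p : ℂ × ℂ, K2 ε x p.1 p.2 * c' x p.1 p.2 ∂(m2.prod m2)
  rw [← integral_sub (inner_int hMQ1 hMQ2 ε h0 h1 c hc M hM x (hFD hx)).1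
    (inner_int hMQ1 hMQ2 ε h0 h1 c' hc' M hM' x (hFD hx)).1]
  refine integral_congr_ae (Filter.Eventually.of_forall fun p => ?_)
  show K2 ε x p.1 p.2 * (c x p.1 p.2 - c' x p.1 p.2) =
    K2 ε x p.1 p.2 * c x p.1 p.2 - K2 ε x p.1 p.2 * c' x p.1 p.2
  ring

private lemma V2_congr (hMQ1 : StMQ1) (ε : ℝ) (c c' : ℂ → ℂ → ℂ → ℝ)
    (F : Set ℂ) (hF : MeasurableSet F) (hFD : F ⊆ Metric.ball 0 1)
    (h : ∀ x ∈ Metric.ball (0 : ℂ) 1, ∀ y ∈ Metric.ball (0 : ℂ) 1, ∀ z ∈ Metric.ball (0 : ℂ) 1,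
      c x y z = c' x y z) : V2 ε F c = V2 ε F c' := by
  have : SigmaFinite m2 := hMQ1.1
  unfold V2
  refine setIntegral_congr_fun hF ?_
  intro x hx
  have hD : ∀ᵐ y ∂m2, y ∈ Metric.ball (0 : ℂ) 1 := by
    rw [ae_iff]
    exact hMQ1.2.1
  have e1 : ∀ᵐ p : ℂ × ℂ ∂(m2.prod m2), p.1 ∈ Metric.ball (0 : ℂ) 1 :=
    Measure.quasiMeasurePreserving_fst.ae hD
  have e2 : ∀ᵐ p : ℂ × ℂ ∂(m2.prod m2), p.2 ∈ Metric.ball (0 : ℂ) 1 :=
    Measure.quasiMeasurePreserving_snd.ae hD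
  refine integral_congr_ae ?_
  filter_upwards [e1, e2] with p p1 p2
  rw [h x (hFD hx) p.1 p1 p.2 p2]

private lemma main_e (hAD1 : StAD1) (hMQ1 : StMQ1) (hMQ2 : StMQ2) (hAFD : StAFD) (hAV0 : StAV0)
    {Γ : Type} [Group Γ] (σ τ : Γ →* SL) (hσ : Fuch σ) (hτ : Fuch τ)
    (htf : ∀ (γ : Γ) (n : ℕ), 1 ≤ n → γ ^ n = 1 → γ = 1) (ξ : ℂ → ℂ) (hξm : Measurable ξ)
    (hξs : ∀ x, ξ x ∈ Metric.sphere (0 : ℂ) 1)
    (hξe : ∀ γ : Γ, ∀ x ∈ Metric.ball (0 : ℂ) 1, ξ (ad σ γ x) = mob (σ γ) (ξ x))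
    (e : ℂ → ℂ) (hem : Measurable e)
    (heD : ∀ x ∈ Metric.closedBall (0 : ℂ) 1, e x ∈ Metric.closedBall (0 : ℂ) 1)
    (hee : ∀ γ : Γ, ∀ z ∈ Metric.closedBall (0 : ℂ) 1, e (mob (σ γ) z) = mob (τ γ) (e z))
    (F : Set ℂ) (hF : FDOn (ad σ) (Metric.ball 0 1) F) (ε : ℝ) (h0 : 0 < ε) (h1 : ε < 1) :
    V2 ε F (fun x y z => Ad (e x) (e y) (e z)) =
      V2 ε F (fun x y z => Ad (e (ξ x)) (e (ξ y)) (e (ξ z))) := by
  classical
  have hAm := hAD1.2.2.2.1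
  have hFm : m2 F < ∞ := ((hAFD Γ σ hσ htf).2.2.2.1 F hF).1
  have hξc : ∀ x, ξ x ∈ Metric.closedBall (0 : ℂ) 1 := fun x =>
    Metric.sphere_subset_closedBall (hξs x)
  have hbc : ∀ x ∈ Metric.ball (0 : ℂ) 1, x ∈ Metric.closedBall (0 : ℂ) 1 := fun x hx =>
    Metric.ball_subset_closedBall hx
  obtain ⟨b, hb⟩ : ∃ b : ℂ → ℂ → ℝ, b = fun x y =>
      if x ∈ Metric.ball (0 : ℂ) 1 ∧ y ∈ Metric.ball (0 : ℂ) 1 then
        Ad (e x) (e y) (e (ξ y)) - Ad (e x) (e (ξ x)) (e (ξ y)) else 0 := ⟨_, rfl⟩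
  have hbm : Measurable (fun p : ℂ × ℂ => b p.1 p.2) := by
    rw [hb]
    have s1 : MeasurableSet {p : ℂ × ℂ | p.1 ∈ Metric.ball (0 : ℂ) 1 ∧
        p.2 ∈ Metric.ball (0 : ℂ) 1} :=
      (measurable_fst Metric.isOpen_ball.measurableSet).inter
        (measurable_snd Metric.isOpen_ball.measurableSet)
    refine Measurable.ite s1 (Measurable.sub ?_ ?_) measurable_const
    · have m1 : Measurable (fun p : ℂ × ℂ => ((e p.1, e p.2, e (ξ p.2)) : ℂ × ℂ × ℂ)) :=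
        (hem.comp measurable_fst).prodMk ((hem.comp measurable_snd).prodMk
          (hem.comp (hξm.comp measurable_snd)))
      simpa only [Function.comp_def] using hAm.comp m1
    · have m1 : Measurable (fun p : ℂ × ℂ => ((e p.1, e (ξ p.1), e (ξ p.2)) : ℂ × ℂ × ℂ)) :=
        (hem.comp measurable_fst).prodMk ((hem.comp (hξm.comp measurable_fst)).prodMk
          (hem.comp (hξm.comp measurable_snd)))
      simpa only [Function.comp_def] using hAm.comp m1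
  have hbb : ∃ M : ℝ, ∀ x y, |b x y| ≤ M := by
    refine ⟨12 * Real.pi, fun x y => ?_⟩
    rw [hb]
    dsimp only
    split_ifs
    · have a1 := abs_sub (Ad (e x) (e y) (e (ξ y))) (Ad (e x) (e (ξ x)) (e (ξ y)))
      linarith [ad_bound (e x) (e y) (e (ξ y)), ad_bound (e x) (e (ξ x)) (e (ξ y))]
    · rw [abs_zero]
      positivity
  have hinv : ∀ γ : Γ, ∀ x ∈ Metric.ball (0 : ℂ) 1, ∀ y ∈ Metric.ball (0 : ℂ) 1,
      b (ad σ γ x) (ad σ γ y) = b x y := by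
    intro γ x hx y hy
    have x' : ad σ γ x ∈ Metric.ball (0 : ℂ) 1 := (hAD1.2.2.2.2.1 (σ γ) (hσ.su γ) x).2.1 hx
    have y' : ad σ γ y ∈ Metric.ball (0 : ℂ) 1 := (hAD1.2.2.2.2.1 (σ γ) (hσ.su γ) y).2.1 hy
    have hA := hAD1.2.2.1 (τ γ) (hτ.su γ)
    rw [hb]
    dsimp only
    rw [if_pos ⟨x', y'⟩, if_pos ⟨hx, hy⟩, hξe γ x hx, hξe γ y hy]
    unfold ad
    rw [hee γ x (hbc x hx), hee γ y (hbc y hy), hee γ (ξ x) (hξc x), hee γ (ξ y) (hξc y),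
      hA _ (heD x (hbc x hx)) _ (heD y (hbc y hy)) _ (heD _ (hξc y)),
      hA _ (heD x (hbc x hx)) _ (heD _ (hξc x)) _ (heD _ (hξc y))]
  have hV := hAV0 Γ σ hσ htf F hF ε h0 h1 b hbm hbb hinv
  have mE : Measurable (fun p : ℂ × ℂ × ℂ => Ad (e p.1) (e p.2.1) (e p.2.2)) := by
    have m1 : Measurable (fun p : ℂ × ℂ × ℂ => ((e p.1, e p.2.1, e p.2.2) : ℂ × ℂ × ℂ)) :=
      (hem.comp measurable_fst).prodMk ((hem.comp (measurable_fst.comp measurable_snd)).prodMk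
        (hem.comp (measurable_snd.comp measurable_snd)))
    simpa only [Function.comp_def] using hAm.comp m1
  have mX : Measurable (fun p : ℂ × ℂ × ℂ => Ad (e (ξ p.1)) (e (ξ p.2.1)) (e (ξ p.2.2))) := by
    have m1 : Measurable (fun p : ℂ × ℂ × ℂ =>
        ((e (ξ p.1), e (ξ p.2.1), e (ξ p.2.2)) : ℂ × ℂ × ℂ)) :=
      (hem.comp (hξm.comp measurable_fst)).prodMk
        ((hem.comp (hξm.comp (measurable_fst.comp measurable_snd))).prodMk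
        (hem.comp (hξm.comp (measurable_snd.comp measurable_snd))))
    simpa only [Function.comp_def] using hAm.comp m1
  have hsub := V2_sub hMQ1 hMQ2 ε h0 h1 (fun x y z => Ad (e x) (e y) (e z))
    (fun x y z => Ad (e (ξ x)) (e (ξ y)) (e (ξ z))) mE mX (6 * Real.pi)
    (fun x y z => ad_bound _ _ _) (fun x y z => ad_bound _ _ _) F hF.mD hF.sub hFm
  have hcong := V2_congr hMQ1 ε (fun x y z => b y z - b x z + b x y)
    (fun x y z => Ad (e x) (e y) (e z) - Ad (e (ξ x)) (e (ξ y)) (e (ξ z))) F hF.mD hF.sub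
    (by
      intro x hx y hy z hz
      rw [hb]
      dsimp only
      rw [if_pos ⟨hy, hz⟩, if_pos ⟨hx, hz⟩, if_pos ⟨hx, hy⟩]
      have a1 := (hAD1.1 _ (heD x (hbc x hx)) _ (heD z (hbc z hz))).2
      have a2 := (hAD1.1 _ (heD _ (hξc x)) _ (heD _ (hξc z))).2
      unfold Ad
      rw [a1, a2]
      ring)
  rw [hV] at hcong
  linarith

theorem hAV1 (hAD1 : StAD1) (hAD2 : StAD2) (hMQ1 : StMQ1) (hMQ2 : StMQ2) (hAFD : StAFD)
    (hAV0 : StAV0) (hAXI : StAXI) : StAV1 := by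
  classical
  intro Γ _ σ τ E hσ hτ htf hEc hEb hEs hEe
  obtain ⟨s, hs, hs2⟩ := hAD2 E (hEc.mono Metric.sphere_subset_closedBall) hEs.injOn hEs.mapsTo
  refine ⟨s, hs, fun F hF ε h0 h1 => ?_⟩
  obtain ⟨ξ, hξm, hξs, hξe⟩ := hAXI Γ σ hσ htf
  have hξc : ∀ x, ξ x ∈ Metric.closedBall (0 : ℂ) 1 := fun x =>
    Metric.sphere_subset_closedBall (hξs x)
  obtain ⟨E1, hE1⟩ : ∃ E1 : ℂ → ℂ, E1 = (Metric.closedBall (0 : ℂ) 1).piecewise E
      (fun _ => 0) := ⟨_, rfl⟩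
  have hcl : MeasurableSet (Metric.closedBall (0 : ℂ) 1) := Metric.isClosed_closedBall.measurableSet
  have hE1v : ∀ x ∈ Metric.closedBall (0 : ℂ) 1, E1 x = E x := by
    intro x hx
    rw [hE1, piecewise_eq_of_mem _ _ _ hx]
  have hE1m : Measurable E1 := by
    rw [hE1]
    exact hEc.measurable_piecewise continuousOn_const hcl
  have hEDD : ∀ x ∈ Metric.closedBall (0 : ℂ) 1, E x ∈ Metric.closedBall (0 : ℂ) 1 := by
    intro x hx
    rw [← Metric.ball_union_sphere] at hx ⊢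
    rcases hx with hx | hx
    · exact Or.inl (hEb.mapsTo hx)
    · exact Or.inr (hEs.mapsTo hx)
  have r1 := main_e hAD1 hMQ1 hMQ2 hAFD hAV0 σ σ hσ hσ htf ξ hξm hξs hξe (fun x => x)
    measurable_id (fun x hx => hx) (fun γ z _ => rfl) F hF ε h0 h1
  have r2 := main_e hAD1 hMQ1 hMQ2 hAFD hAV0 σ τ hσ hτ htf ξ hξm hξs hξe E1 hE1m
    (fun x hx => by rw [hE1v x hx]; exact hEDD x hx)
    (fun γ z hz => by
      rw [hE1v z hz, hE1v _ ((hAD1.2.2.2.2.1 (σ γ) (hσ.su γ) z).1 hz).2, hEe γ z hz])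
    F hF ε h0 h1
  have r3 : V2 ε F (fun x y z => Ad (E x) (E y) (E z)) =
      V2 ε F (fun x y z => Ad (E1 x) (E1 y) (E1 z)) := by
    refine V2_congr hMQ1 ε _ _ F hF.mD hF.sub ?_
    intro x hx y hy z hz
    rw [hE1v x (Metric.ball_subset_closedBall hx), hE1v y (Metric.ball_subset_closedBall hy),
      hE1v z (Metric.ball_subset_closedBall hz)]
  have r4 : (fun x y z => Ad (E1 (ξ x)) (E1 (ξ y)) (E1 (ξ z))) =
      fun x y z => s * Ad (ξ x) (ξ y) (ξ z) := by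
    funext x y z
    rw [hE1v _ (hξc x), hE1v _ (hξc y), hE1v _ (hξc z)]
    exact hs2 _ (hξs x) _ (hξs y) _ (hξs z)
  have r5 : V2 ε F (fun x y z => s * Ad (ξ x) (ξ y) (ξ z)) =
      s * V2 ε F (fun x y z => Ad (ξ x) (ξ y) (ξ z)) := by
    unfold V2
    rw [← integral_const_mul]
    refine integral_congr_ae (Filter.Eventually.of_forall fun x => ?_)
    dsimp only
    rw [← integral_const_mul]
    refine integral_congr_ae (Filter.Eventually.of_forall fun p => ?_)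
    dsimp only
    ring
  have r6 : V2 ε F Ad = V2 ε F (fun x y z => Ad (ξ x) (ξ y) (ξ z)) := r1
  rw [r3, r2, r4, r5, r6]

end Pool.Agent.Helper47.QA
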